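import Pool.Agent.Q81.Hyp4

/-!
# Zero bounds for terminating hypergeometric polynomials
-/

namespace Pool.Agent.Results.MP_d36490_an.ZeroBound

open Polynomial Finset Q81.Hyp Q81.Un

/-- the Pochhammer symbol `w (w+1) ... (w+k-1)` -/
noncomputable def poch (w : ℂ) (k : ℕ) : ℂ := ∏ i ∈ range k, (w + i)

/-- the coefficient of `z^j` in `P_n` -/
noncomputable def A {p q : ℕ} (lam : ℂ) (a : Fin p → ℂ) (b : Fin q → ℂ) (n j : ℕ) : ℂ :=
  poch (-(n : ℂ)) j * poch ((n : ℂ) + lam) j * (∏ k, poch (a k) j) /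
    ((∏ k, poch (b k) j) * (j.factorial : ℂ))

/-- the terminating hypergeometric polynomial
`P_n(z) = F(-n, n+λ, a_1, ..., a_p; b_1, ..., b_q; z)` -/
noncomputable def P {p q : ℕ} (lam : ℂ) (a : Fin p → ℂ) (b : Fin q → ℂ) (n : ℕ) (z : ℂ) : ℂ :=
  ∑ j ∈ range (n + 1), A lam a b n j * z ^ j

lemma poch_split (w : ℂ) (n : ℕ) : ∀ i ≤ n,
    poch w n = poch w (n - i) * ∏ l ∈ range i, (w + n - 1 - l) := by
  intro i
  induction i with
  | zero => intro _; simp
  | succ i ih =>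
    intro hi
    rw [ih (by omega), prod_range_succ]
    have h1 : poch w (n - i) = poch w (n - (i + 1)) * (w + n - 1 - i) := by
      rw [poch, show n - i = (n - (i + 1)) + 1 by omega, prod_range_succ, ← poch]
      congr 1
      rw [Nat.cast_sub hi]
      push_cast
      ring
    rw [h1]
    ring

lemma poch_neg (n j : ℕ) : poch (-(n : ℂ)) j = (-1) ^ j * (n.choose j : ℂ) * (j.factorial : ℂ) := by
  induction j with
  | zero => simp [poch]
  | succ j ih =>
    rw [poch, prod_range_succ, ← poch, ih, Nat.factorial_succ]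
    push_cast
    by_cases h : j ≤ n
    · have h3 := Nat.choose_succ_right_eq n j
      have h4 : ((n.choose (j + 1) : ℂ)) * (j + 1) = (n.choose j : ℂ) * ((n : ℂ) - j) := by
        rw [← Nat.cast_sub h]
        exact_mod_cast h3
      linear_combination ((-1) ^ j * (j.factorial : ℂ)) * h4
    · rw [Nat.choose_eq_zero_of_lt (show n < j by omega),
        Nat.choose_eq_zero_of_lt (show n < j + 1 by omega)]
      simp

lemma poch_ne {w : ℂ} (hw : ∀ m : ℕ, w ≠ -(m : ℂ)) (j : ℕ) : poch w j ≠ 0 :=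
  prod_ne_zero_iff.2 fun i _ h => hw i (by linear_combination h)

section
variable {q r : ℕ} (lam : ℂ) (a : Fin (q + r) → ℂ) (b : Fin q → ℂ)

/-- the ratios of coefficients -/
noncomputable def al (n i : ℕ) : ℂ :=
  bes (2 * n + lam - 1) i * ((∏ k, rat (a k) ((Fin.append b fun _ : Fin r => (1 : ℂ)) k) n i) * te n i ^ r)

lemma al_eq (n i : ℕ) (hi : i ≤ n) : al lam a b n i =
    (∏ k, ∏ l ∈ range i, (b k + n - 1 - l)) /
      ((∏ l ∈ range i, ((n : ℂ) + lam + n - 1 - l)) * ∏ k, ∏ l ∈ range i, (a k + n - 1 - l)) := by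
  have h1 : ∏ k, rat (a k) ((Fin.append b fun _ : Fin r => (1 : ℂ)) k) n i =
      ((∏ k, ∏ l ∈ range i, (b k + n - 1 - l)) * (∏ l ∈ range i, ((n : ℂ) - l)) ^ r) /
        ∏ k, ∏ l ∈ range i, (a k + n - 1 - l) := by
    have h2 : ∀ k, rat (a k) ((Fin.append b fun _ : Fin r => (1 : ℂ)) k) n i =
        (∏ l ∈ range i, ((Fin.append b fun _ : Fin r => (1 : ℂ)) k + n - 1 - l)) /
          ∏ l ∈ range i, (a k + n - 1 - l) := fun k => by rw [rat, prod_div_distrib]
    simp only [h2]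
    rw [prod_div_distrib, Fin.prod_univ_add (fun k => ∏ l ∈ range i,
      ((Fin.append b fun _ : Fin r => (1 : ℂ)) k + n - 1 - l))]
    congr 2
    · simp
    · simp only [Fin.append_right, prod_const, card_univ, Fintype.card_fin]
      congr 1
      exact prod_congr rfl fun l _ => by ring
  have h3 : te n i = (∏ l ∈ range i, ((n : ℂ) - l))⁻¹ := by
    rw [te, ← prod_inv_distrib]
    exact prod_congr rfl fun l _ => by rw [one_div]
  have h4 : bes (2 * n + lam - 1) i = (∏ l ∈ range i, ((n : ℂ) + lam + n - 1 - l))⁻¹ := by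
    rw [bes, ← prod_inv_distrib]
    exact prod_congr rfl fun l _ => by rw [one_div]; congr 1; ring
  have h5 : ∏ l ∈ range i, ((n : ℂ) - l) ≠ 0 := by
    refine prod_ne_zero_iff.2 fun l hl => ?_
    rw [mem_range] at hl
    rw [← Nat.cast_sub (by omega : l ≤ n)]
    exact_mod_cast (by omega : n - l ≠ 0)
  rw [al, h1, h3, h4, inv_pow]
  have h6 := pow_ne_zero r h5
  generalize (∏ l ∈ range i, ((n : ℂ) - l)) ^ r = T at *
  field_simp

lemma A_zero {p : ℕ} (a : Fin p → ℂ) (n : ℕ) : A lam a b n 0 = 1 := by simp [A, poch]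

lemma A_reflect (ha : ∀ k, ∀ m : ℕ, a k ≠ -(m : ℂ)) (hb : ∀ k, ∀ m : ℕ, b k ≠ -(m : ℂ)) {n i : ℕ}
    (hi : i ≤ n) (hA : A lam a b n n ≠ 0) :
    A lam a b n (n - i) = A lam a b n n * ((-1) ^ i * ((n.choose i : ℂ) * al lam a b n i)) := by
  have e0 : ∀ j, A lam a b n j = (-1) ^ j * (n.choose j : ℂ) * poch ((n : ℂ) + lam) j *
      (∏ k, poch (a k) j) / (∏ k, poch (b k) j) := by
    intro j
    rw [A, poch_neg]
    have h1 : (j.factorial : ℂ) ≠ 0 := by exact_mod_cast j.factorial_ne_zero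
    have h2 : ∏ k, poch (b k) j ≠ 0 := prod_ne_zero_iff.2 fun k _ => poch_ne (hb k) j
    field_simp
  have s1 := poch_split ((n : ℂ) + lam) n i hi
  have s2 : ∏ k, poch (a k) n = (∏ k, poch (a k) (n - i)) * ∏ k, ∏ l ∈ range i, (a k + n - 1 - l) := by
    rw [← prod_mul_distrib]
    exact prod_congr rfl fun k _ => poch_split (a k) n i hi
  have s3 : ∏ k, poch (b k) n = (∏ k, poch (b k) (n - i)) * ∏ k, ∏ l ∈ range i, (b k + n - 1 - l) := by
    rw [← prod_mul_distrib]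
    exact prod_congr rfl fun k _ => poch_split (b k) n i hi
  have n1 : poch ((n : ℂ) + lam) n ≠ 0 := by
    intro h
    apply hA
    rw [e0, h]
    simp
  have n2 : ∏ k, poch (a k) n ≠ 0 := prod_ne_zero_iff.2 fun k _ => poch_ne (ha k) n
  have n3 : ∏ k, poch (b k) n ≠ 0 := prod_ne_zero_iff.2 fun k _ => poch_ne (hb k) n
  rw [e0, e0, al_eq lam a b n i hi, s1, s2, s3]
  rw [s1] at n1
  rw [s2] at n2
  rw [s3] at n3
  have m1 := left_ne_zero_of_mul n1
  have m1' := right_ne_zero_of_mul n1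
  have m2 := left_ne_zero_of_mul n2
  have m2' := right_ne_zero_of_mul n2
  have m3 := left_ne_zero_of_mul n3
  have m3' := right_ne_zero_of_mul n3
  have hs : (-1 : ℂ) ^ n = (-1) ^ (n - i) * (-1) ^ i := by rw [← pow_add]; congr 1; omega
  have hs2 : ((-1 : ℂ) ^ i) * (-1) ^ i = 1 := by rw [← mul_pow]; simp
  rw [Nat.choose_symm hi, Nat.choose_self, hs]
  push_cast
  generalize (∏ k, ∏ l ∈ range i, (b k + (n : ℂ) - 1 - l)) = B at *
  generalize (∏ k, ∏ l ∈ range i, (a k + (n : ℂ) - 1 - l)) = B' at *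
  generalize (∏ l ∈ range i, ((n : ℂ) + lam + n - 1 - l)) = B'' at *
  field_simp
  linear_combination (-(n.choose i : ℂ)) * hs2

lemma P_reflect (ha : ∀ k, ∀ m : ℕ, a k ≠ -(m : ℂ)) (hb : ∀ k, ∀ m : ℕ, b k ≠ -(m : ℂ)) {n : ℕ}
    (hA : A lam a b n n ≠ 0) {z : ℂ} (hz : z ≠ 0) :
    P lam a b n z = A lam a b n n * z ^ n * (GP n (al lam a b n)).eval (-(1 / z)) := by
  rw [P, ← sum_range_reflect, GP_eval, mul_sum]
  refine sum_congr rfl fun i hi => ?_
  rw [mem_range] at hi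
  rw [show n + 1 - 1 - i = n - i by omega, A_reflect lam a b ha hb (by omega) hA]
  have h1 : z ^ n = z ^ (n - i) * z ^ i := by rw [← pow_add]; congr 1; omega
  have h2 : (-(1 / z)) ^ i = (-1) ^ i * (1 / z ^ i) := by
    rw [neg_eq_neg_one_mul, mul_pow, one_div_pow]
  rw [h1, h2]
  have h3 : z ^ i ≠ 0 := pow_ne_zero _ hz
  field_simp

lemma finite_bound (n : ℕ) : ∃ B : ℝ, 0 ≤ B ∧ ∀ z, P lam a b n z = 0 → ‖z‖ ≤ B := by
  set p : ℂ[X] := ∑ j ∈ range (n + 1), C (A lam a b n j) * X ^ j with hp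
  have hev : ∀ z, p.eval z = P lam a b n z := by
    intro z
    rw [hp, P]
    simp [eval_finsetSum]
  have hp0 : p ≠ 0 := by
    intro h
    have h1 := hev 0
    rw [h, P, sum_range_succ'] at h1
    simp [A_zero] at h1
  refine ⟨∑ z ∈ p.roots.toFinset, ‖z‖, sum_nonneg fun z _ => norm_nonneg z, fun z hz => ?_⟩
  have h1 : z ∈ p.roots.toFinset := by
    rw [Multiset.mem_toFinset, mem_roots hp0, IsRoot, hev]; exact hz
  exact single_le_sum (f := fun z => ‖z‖) (fun z _ => norm_nonneg z) h1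

end

/-- **Zero bound.** For all `p ≥ q ≥ 0` and all admissible parameters there is `M` such that all
zeros `z` of `P_n` satisfy `|z| ≤ M n^(q-p-1)`, for all `n ≥ 1` with `A_n ≠ 0`. -/
theorem result (p q : ℕ) (hpq : q ≤ p) (lam : ℂ) (a : Fin p → ℂ) (b : Fin q → ℂ)
    (ha : ∀ k, ∀ m : ℕ, a k ≠ -(m : ℂ)) (hb : ∀ k, ∀ m : ℕ, b k ≠ -(m : ℂ)) :
    ∃ M : ℝ, ∀ n : ℕ, 1 ≤ n → A lam a b n n ≠ 0 → ∀ z : ℂ, P lam a b n z = 0 →
      ‖z‖ ≤ M * (n : ℝ) ^ ((q : ℤ) - (p : ℤ) - 1) := by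
  obtain ⟨r, rfl⟩ := Nat.exists_eq_add_of_le hpq
  have ha' : ∀ k, ∀ m : ℕ, a k + m ≠ 0 := fun k m h => ha k m (by linear_combination h)
  choose c hc0 hc using fun k => rat_zf (a k) ((Fin.append b fun _ : Fin r => (1 : ℂ)) k) (ha' k)
  choose B hB0 hB using fun n => finite_bound (r := r) lam a b n
  set N0 : ℕ := ⌈2 * |lam.re|⌉₊ + 1 with hN0
  set κ : ℝ := ∏ k, c k with hκ
  have hκ0 : 0 < κ := prod_pos fun k _ => hc0 k
  have hzpow : ∀ n : ℕ, (n : ℝ) ^ ((q : ℤ) - ((q + r : ℕ) : ℤ) - 1) = 1 / (n : ℝ) ^ (r + 1) := by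
    intro n
    rw [show (q : ℤ) - ((q + r : ℕ) : ℤ) - 1 = -((r + 1 : ℕ) : ℤ) by push_cast; ring, zpow_neg,
      zpow_natCast, one_div]
  refine ⟨2 * 8 ^ r / κ + ∑ n ∈ range N0, B n * (n : ℝ) ^ (r + 1), fun n hn hA z hz => ?_⟩
  rw [hzpow]
  have hn0 : (0 : ℝ) < n := by exact_mod_cast hn
  have hS : 0 ≤ ∑ n ∈ range N0, B n * (n : ℝ) ^ (r + 1) :=
    sum_nonneg fun n _ => mul_nonneg (hB0 n) (by positivity)
  rcases lt_or_ge n N0 with hlt | hge
  · have h1 : B n * (n : ℝ) ^ (r + 1) ≤ ∑ n ∈ range N0, B n * (n : ℝ) ^ (r + 1) :=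
      single_le_sum (f := fun n : ℕ => B n * (n : ℝ) ^ (r + 1))
        (fun n _ => mul_nonneg (hB0 n) (by positivity)) (mem_range.2 hlt)
    have h2 := hB n z hz
    have h3 : 0 ≤ 2 * 8 ^ r / κ := by positivity
    calc ‖z‖ ≤ B n := h2
      _ = (B n * (n : ℝ) ^ (r + 1)) * (1 / (n : ℝ) ^ (r + 1)) := by field_simp
      _ ≤ _ := by gcongr; linarith
  · have h1 : 2 * |lam.re| ≤ n := by
      have := Nat.le_ceil (2 * |lam.re|)
      have h2 : ((⌈2 * |lam.re|⌉₊ + 1 : ℕ) : ℝ) ≤ n := by exact_mod_cast hge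
      push_cast at h2
      linarith
    have h2 : (n : ℝ) / 2 ≤ n + lam.re := by
      have := neg_abs_le lam.re
      linarith
    have h3 : 0 < (n : ℝ) + lam.re := by linarith
    have z1 := bes_zf h3
    have z2 := ZF.prod (N := n) univ (fun k => rat (a k) ((Fin.append b fun _ : Fin r => (1 : ℂ)) k) n) c
      (fun k _ => hc0 k) fun k _ => hc k n
    have z3 := ZF.prod (N := n) (range r) (fun _ => te n) (fun _ => (n : ℝ) / 8)
      (fun _ _ => by positivity) fun _ _ => te_zf n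
    simp only [prod_const, card_range] at z3
    have z4 := z1.mul (z2.mul z3 hκ0 (by positivity)) h3 (by positivity)
    have z5 : ZF n (al lam a b n) (((n : ℝ) + lam.re) * (κ * ((n : ℝ) / 8) ^ r)) := z4
    have hz0 : z ≠ 0 := by
      rintro rfl
      rw [P, sum_range_succ'] at hz
      simp [A_zero] at hz
    rw [P_reflect lam a b ha hb hA hz0] at hz
    have h4 := (mul_eq_zero.1 hz).resolve_left (mul_ne_zero hA (pow_ne_zero n hz0))
    have h5 : ((n : ℝ) + lam.re) * (κ * ((n : ℝ) / 8) ^ r) ≤ ‖-(1 / z)‖ := by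
      by_contra hcon
      exact z5 _ (not_le.1 hcon) h4
    rw [norm_neg, norm_div, norm_one] at h5
    have hzn : 0 < ‖z‖ := norm_pos_iff.2 hz0
    have h6 : ((n : ℝ) / 2) * (κ * ((n : ℝ) / 8) ^ r) ≤ 1 / ‖z‖ := by
      refine le_trans ?_ h5
      gcongr
    have h7 : ‖z‖ ≤ (2 * 8 ^ r / κ) * (1 / (n : ℝ) ^ (r + 1)) := by
      rw [le_div_iff₀ hzn] at h6
      have h8 : ((n : ℝ) / 2) * (κ * ((n : ℝ) / 8) ^ r) * ((2 * 8 ^ r / κ) * (1 / (n : ℝ) ^ (r + 1))) = 1 := by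
        rw [div_pow]
        field_simp
        ring
      have h9 : 0 < ((n : ℝ) / 2) * (κ * ((n : ℝ) / 8) ^ r) := by positivity
      by_contra hcon
      push Not at hcon
      have := mul_lt_mul_of_pos_left hcon h9
      linarith
    refine h7.trans ?_
    gcongr
    linarith

end Pool.Agent.Results.MP_d36490_an.ZeroBound
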